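import Mathlib
import Pool.Agent.N753.DR.Stm6

/-!
# Project PC, part POLYV: polynomials are rarely small at a given prime
-/

set_option autoImplicit false

namespace Pool.Agent.N703.PC

open NumberField IsDedekindDomain Module Polynomial Pool.Agent.N753.DR

/-- small differences of integers are divisible by a large integer -/
def IntA {K : Type} [Field K] (a : AbsoluteValue K ℝ) (α : ℝ) : Prop :=
  ∀ δ : ℝ, 0 < δ → ∃ M : ℕ, 1 ≤ M ∧ δ ^ (-α) ≤ M ∧ ∀ m : ℤ, a (m : K) ≤ δ → (M : ℤ) ∣ m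

section One

variable {K : Type} [Field K] [CharZero K]

/-- Lagrange's formula for the leading coefficient -/
theorem lag1 (a : AbsoluteValue K ℝ) (P : K[X]) (hP : P ≠ 0) (S : Finset ℤ)
    (hS : S.card = P.natDegree + 1) (ε : ℝ)
    (hε : ∀ x ∈ S, a (P.eval (x : K)) ≤ ε) :
    ∃ x ∈ S, (∏ y ∈ S.erase x, a ((x : K) - y)) * a P.leadingCoeff ≤ (P.natDegree + 1) * ε := by
  by_contra hcon
  push Not at hcon
  have hinj : Set.InjOn (fun x : ℤ => (x : K)) S := fun x _ y _ h => Int.cast_injective h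
  have h1 := Lagrange.leadingCoeff_eq_sum (s := S) hinj (P := P) (by
    rw [Polynomial.degree_eq_natDegree hP, hS]
    norm_cast)
  have hne : S.Nonempty := by
    rw [← Finset.card_pos]
    omega
  have hpos : ∀ x ∈ S, 0 < ∏ y ∈ S.erase x, a ((x : K) - y) := fun x _ =>
    Finset.prod_pos fun y hy => a.pos (sub_ne_zero.2 fun h =>
      (Finset.ne_of_mem_erase hy).symm (Int.cast_injective h))
  have h2 : a P.leadingCoeff ≤ ∑ x ∈ S, ε / ∏ y ∈ S.erase x, a ((x : K) - y) := by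
    rw [h1]
    refine (IsAbsoluteValue.abv_sum a _ _).trans (Finset.sum_le_sum fun x hx => ?_)
    rw [map_div₀, map_prod]
    exact div_le_div_of_nonneg_right (hε x hx) (hpos x hx).le
  have h3 : ∑ x ∈ S, ε / ∏ y ∈ S.erase x, a ((x : K) - y) <
      ∑ _x ∈ S, a P.leadingCoeff / (P.natDegree + 1) := by
    refine Finset.sum_lt_sum_of_nonempty hne fun x hx => ?_
    have h4 := hcon x hx
    have h5 := hpos x hx
    rw [div_lt_div_iff₀ h5 (by positivity)]
    linarith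
  rw [Finset.sum_const, hS, nsmul_eq_mul] at h3
  push_cast at h3
  have h6 : ((P.natDegree : ℝ) + 1) * (a P.leadingCoeff / (P.natDegree + 1)) =
      a P.leadingCoeff := by
    field_simp
  linarith

/-- two of many solutions are near each other -/
theorem lag2 (a : AbsoluteValue K ℝ) (P : K[X]) (hP : P ≠ 0) (hD : 1 ≤ P.natDegree) (S : Finset ℤ)
    (hS : S.card = P.natDegree + 1) (ε : ℝ)
    (hε : ∀ x ∈ S, a (P.eval (x : K)) ≤ ε) :
    ∃ x ∈ S, ∃ y ∈ S, x ≠ y ∧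
      a ((x - y : ℤ) : K) ^ P.natDegree * a P.leadingCoeff ≤ (P.natDegree + 1) * ε := by
  obtain ⟨x, hx, h⟩ := lag1 a P hP S hS ε hε
  have hcard : (S.erase x).card = P.natDegree := by
    rw [Finset.card_erase_of_mem hx, hS]
    rfl
  have hne : (S.erase x).Nonempty := by
    rw [← Finset.card_pos]
    omega
  obtain ⟨y, hy, hmin⟩ := Finset.exists_min_image (S.erase x) (fun y : ℤ => a ((x : K) - y)) hne
  refine ⟨x, hx, y, Finset.mem_of_mem_erase hy, (Finset.ne_of_mem_erase hy).symm, ?_⟩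
  refine le_trans (mul_le_mul_of_nonneg_right ?_ (a.nonneg _)) h
  rw [← hcard, ← Finset.prod_const, Int.cast_sub]
  exact Finset.prod_le_prod (fun _ _ => a.nonneg _) fun z hz => hmin z hz

end One

/-- integers in an interval in a residue class -/
theorem cls (X M : ℕ) (hM : 1 ≤ M) (r : ℤ) :
    (((Finset.Icc (-(X : ℤ)) X).filter (fun x => x ≡ r [ZMOD M])).card : ℝ) ≤
      (2 * X + 1) / M + 1 := by
  have h1 := Int.Ioc_filter_modEq_card (-(X : ℤ) - 1) X (r := (M : ℤ)) (by exact_mod_cast hM) r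
  have h2 : Finset.Icc (-(X : ℤ)) X = Finset.Ioc (-(X : ℤ) - 1) X := by
    ext x
    simp only [Finset.mem_Icc, Finset.mem_Ioc]
    omega
  rw [h2]
  have hMq : (0 : ℚ) < M := by exact_mod_cast hM
  have h3 : ((⌊(((X : ℤ) : ℚ) - (r : ℚ)) / ((M : ℤ) : ℚ)⌋ -
      ⌊(((-(X : ℤ) - 1 : ℤ) : ℚ) - (r : ℚ)) / ((M : ℤ) : ℚ)⌋ : ℤ) : ℚ) ≤
      (2 * X + 1) / M + 1 := by
    have h4 := Int.floor_le ((((X : ℤ) : ℚ) - (r : ℚ)) / ((M : ℤ) : ℚ))
    have h5 := Int.lt_floor_add_one ((((-(X : ℤ) - 1 : ℤ) : ℚ) - (r : ℚ)) / ((M : ℤ) : ℚ))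
    push_cast at *
    have h6 : ((X : ℚ) - r) / M - (-(X : ℚ) - 1 - r) / M = (2 * X + 1) / M := by
      rw [← sub_div]
      congr 1
      ring
    linarith
  have h7 : (((Finset.filter (fun x => x ≡ r [ZMOD M]) (Finset.Ioc (-(X : ℤ) - 1) X)).card : ℤ) : ℚ) ≤
      (2 * X + 1) / M + 1 := by
    rw [h1, Int.cast_max]
    refine max_le h3 ?_
    push_cast
    positivity
  have h8 : ((((Finset.filter (fun x => x ≡ r [ZMOD M]) (Finset.Ioc (-(X : ℤ) - 1) X)).card : ℤ) : ℚ) : ℝ) ≤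
      (((2 * X + 1) / M + 1 : ℚ) : ℝ) := by exact_mod_cast h7
  push_cast at h8
  exact h8

/-- a set of integers in which any `D + 1` elements contain a pair of congruent ones -/
theorem few (X M D : ℕ) (hM : 1 ≤ M) (T : Finset ℤ) (hT : T ⊆ Finset.Icc (-(X : ℤ)) X)
    (h : ∀ S ⊆ T, S.card = D + 1 → ∃ x ∈ S, ∃ y ∈ S, x ≠ y ∧ (M : ℤ) ∣ x - y) :
    (T.card : ℝ) ≤ D * ((2 * X + 1) / M + 1) := by
  classical
  have hd : ∀ x y : ℤ, x % (M : ℤ) = y % (M : ℤ) ↔ (M : ℤ) ∣ x - y := fun x y =>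
    (show (x % (M : ℤ) = y % (M : ℤ)) ↔ y ≡ x [ZMOD M] from ⟨Eq.symm, Eq.symm⟩).trans
      Int.modEq_iff_dvd
  have h1 : (T.image (fun x => x % (M : ℤ))).card ≤ D := by
    by_contra hcon
    push Not at hcon
    obtain ⟨U, hU, hUc⟩ := Finset.exists_subset_card_eq (Nat.succ_le_of_lt hcon)
    obtain ⟨S, hS, hSinj, hSi⟩ := Finset.exists_subset_injOn_image_eq_of_surjOn
      (f := fun x : ℤ => x % (M : ℤ)) (T : Set ℤ) U (by
        intro u hu
        have := hU hu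
        rw [Finset.mem_image] at this
        obtain ⟨x, hx, hxu⟩ := this
        exact ⟨x, hx, hxu⟩)
    have hSc : S.card = D + 1 := by
      rw [← Finset.card_image_of_injOn hSinj, hSi, hUc]
    obtain ⟨x, hx, y, hy, hxy, hdv⟩ := h S (by exact_mod_cast hS) hSc
    exact hxy (hSinj hx hy ((hd x y).2 hdv))
  have h2 : (T.card : ℝ) = ∑ r ∈ T.image (fun x => x % (M : ℤ)),
      ((T.filter (fun x => x % (M : ℤ) = r)).card : ℝ) := by
    exact_mod_cast Finset.card_eq_sum_card_image (fun x => x % (M : ℤ)) T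
  rw [h2]
  have h3 : ∀ r ∈ T.image (fun x => x % (M : ℤ)),
      ((T.filter (fun x => x % (M : ℤ) = r)).card : ℝ) ≤ (2 * X + 1) / M + 1 := by
    intro r hr
    rw [Finset.mem_image] at hr
    obtain ⟨x, hx, rfl⟩ := hr
    refine le_trans ?_ (cls X M hM x)
    exact_mod_cast Finset.card_le_card fun y hy => by
      rw [Finset.mem_filter] at hy ⊢
      exact ⟨hT hy.1, hy.2⟩
  refine (Finset.sum_le_card_nsmul _ _ _ h3).trans ?_
  rw [nsmul_eq_mul]
  refine mul_le_mul_of_nonneg_right (by exact_mod_cast h1) (by positivity)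

theorem abv_le_of_exp {K : Type} [Field K] [NumberField K] (v : HeightOneSpectrum (𝓞 K))
    (x : K) (n : ℤ) (h : v.valuation K x ≤ WithZero.exp n) :
    HeightOneSpectrum.adicAbv K v x ≤ (Ideal.absNorm v.asIdeal : ℝ) ^ n := by
  rw [HeightOneSpectrum.adicAbv_def]
  have h1 := (WithZeroMulInt.toNNReal_strictMono
    (HeightOneSpectrum.one_lt_absNorm_nnreal v)).monotone h
  rw [WithZeroMulInt.toNNReal_neg_apply (x := WithZero.exp n) _ (WithZero.exp_ne_zero)] at h1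
  have h2 := NNReal.coe_le_coe.2 h1
  simpa [WithZero.exp] using h2

/-- the absolute value of an element of a power of the prime -/
theorem abv_mem {K : Type} [Field K] [NumberField K] (v : HeightOneSpectrum (𝓞 K)) (x : 𝓞 K) (e : ℕ)
    (h : x ∈ v.asIdeal ^ e) :
    HeightOneSpectrum.adicAbv K v (x : K) ≤ Real.exp (-(e * lN v)) := by
  have h0 : v.valuation K (x : K) ≤ WithZero.exp (-(e : ℤ)) := by
    rw [HeightOneSpectrum.valuation_of_algebraMap]
    exact (v.intValuation_le_pow_iff_mem x e).2 h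
  have hN : (0 : ℝ) < (Ideal.absNorm v.asIdeal : ℝ) := by
    have := HeightOneSpectrum.one_lt_absNorm v
    exact_mod_cast (zero_lt_one.trans this)
  have h3 : Real.exp (-(e * lN v)) = (Ideal.absNorm v.asIdeal : ℝ) ^ (-(e : ℤ)) := by
    unfold lN
    rw [Real.exp_neg, mul_comm, Real.exp_mul, Real.exp_log hN, zpow_neg, zpow_natCast,
      Real.rpow_natCast]
  rw [h3]
  exact abv_le_of_exp v _ _ h0

/-- the property `IntA` for the absolute value of a prime -/
theorem intA_adic {K : Type} [Field K] [NumberField K] (v : HeightOneSpectrum (𝓞 K)) :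
    ∃ α : ℝ, 0 < α ∧ IntA (HeightOneSpectrum.adicAbv K v) α := by
  classical
  set a := HeightOneSpectrum.adicAbv K v with ha
  have hex : ∃ p : ℕ, 1 ≤ p ∧ ((p : ℕ) : 𝓞 K) ∈ v.asIdeal :=
    ⟨Ideal.absNorm v.asIdeal, (HeightOneSpectrum.one_lt_absNorm v).le, Ideal.absNorm_mem _⟩
  obtain ⟨hp1, hpv⟩ := Nat.find_spec hex
  set p := Nat.find hex with hp
  have hp2 : 2 ≤ p := by
    by_contra hcon
    have h1 : p = 1 := by omega
    rw [h1, Nat.cast_one] at hpv
    exact v.isPrime.ne_top ((Ideal.eq_top_iff_one _).2 hpv)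
  have hdiv : ∀ m : ℤ, (m : 𝓞 K) ∈ v.asIdeal → (p : ℤ) ∣ m := by
    intro m hm
    have h1 : ((m % (p : ℤ)).toNat : 𝓞 K) ∈ v.asIdeal := by
      have h2 : 0 ≤ m % (p : ℤ) := Int.emod_nonneg _ (by omega)
      have h3 : (((m % (p : ℤ)).toNat : ℕ) : 𝓞 K) = ((m % (p : ℤ) : ℤ) : 𝓞 K) := by
        conv_rhs => rw [← Int.toNat_of_nonneg h2]
        exact (Int.cast_natCast _).symm
      rw [h3, Int.emod_def]
      push_cast
      exact v.asIdeal.sub_mem hm (v.asIdeal.mul_mem_right _ hpv)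
    have h4 : m % (p : ℤ) < p := Int.emod_lt_of_pos _ (by omega)
    have h5 : 0 ≤ m % (p : ℤ) := Int.emod_nonneg _ (by omega)
    by_contra hcon
    have h6 : m % (p : ℤ) ≠ 0 := fun h => hcon (Int.dvd_of_emod_eq_zero h)
    have h7 := Nat.find_min hex (m := (m % (p : ℤ)).toNat) (by
      rw [← hp]
      omega)
    exact h7 ⟨by omega, h1⟩
  have hunit : ∀ m : ℤ, ¬ (p : ℤ) ∣ m → a (m : K) = 1 := by
    intro m hm
    have h1 : a (m : K) ≤ 1 := HeightOneSpectrum.adicAbv_intCast_le_one K v m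
    have h2 : ¬ a (m : K) < 1 := by
      intro hlt
      apply hm
      apply hdiv
      have h3 : v.adicAbv (K := K) (HeightOneSpectrum.one_lt_absNorm_nnreal v)
          (algebraMap (𝓞 K) K (m : 𝓞 K)) < 1 := by
        rw [map_intCast]
        exact hlt
      exact (v.adicAbv_coe_lt_one_iff (HeightOneSpectrum.one_lt_absNorm_nnreal v) _).1 h3
    exact le_antisymm h1 (not_lt.1 h2)
  set θ : ℝ := a (p : K) with hθ
  have hθ0 : 0 < θ := a.pos (by
    have : p ≠ 0 := by omega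
    exact_mod_cast this)
  have hθ1 : θ < 1 := by
    have h3 : v.adicAbv (K := K) (HeightOneSpectrum.one_lt_absNorm_nnreal v)
        (algebraMap (𝓞 K) K (p : 𝓞 K)) < 1 :=
      (v.adicAbv_coe_lt_one_iff (HeightOneSpectrum.one_lt_absNorm_nnreal v) _).2 hpv
    rw [map_natCast] at h3
    exact h3
  have key : ∀ k : ℕ, ∀ m : ℤ, ¬ ((p : ℤ) ^ k ∣ m) → θ ^ k ≤ θ * a (m : K) := by
    intro k
    induction k with
    | zero =>
      intro m hm
      exact absurd (by simp) hm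
    | succ k ih =>
      intro m hm
      by_cases hpm : (p : ℤ) ∣ m
      · obtain ⟨m', rfl⟩ := hpm
        have h1 : ¬ ((p : ℤ) ^ k ∣ m') := fun h => hm (by
          rw [pow_succ']
          exact mul_dvd_mul_left _ h)
        have h2 := ih m' h1
        rw [Int.cast_mul, map_mul, Int.cast_natCast, ← hθ, pow_succ']
        exact mul_le_mul_of_nonneg_left h2 hθ0.le
      · rw [hunit m hpm, mul_one, pow_succ']
        exact mul_le_of_le_one_right hθ0.le (pow_le_one₀ hθ0.le hθ1.le)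
  have hpR : (1 : ℝ) < p := by exact_mod_cast (by omega : 1 < p)
  have hlog : Real.logb θ p < 0 := by
    rw [Real.logb]
    exact div_neg_of_pos_of_neg (Real.log_pos hpR) (Real.log_neg hθ0 hθ1)
  refine ⟨-Real.logb θ p, by linarith, fun δ hδ => ?_⟩
  have hexk : ∃ k : ℕ, θ ^ k ≤ δ := by
    obtain ⟨k, hk⟩ := exists_pow_lt_of_lt_one hδ hθ1
    exact ⟨k, hk.le⟩
  have hk := Nat.find_spec hexk
  set k := Nat.find hexk with hkd
  refine ⟨p ^ k, Nat.one_le_pow _ _ (by omega), ?_, ?_⟩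
  · rw [neg_neg]
    refine (Real.rpow_le_rpow_of_nonpos (pow_pos hθ0 k) hk hlog.le).trans ?_
    rw [← Real.rpow_natCast, ← Real.rpow_mul hθ0.le, mul_comm, Real.rpow_mul hθ0.le,
      Real.rpow_logb hθ0 hθ1.ne (by linarith), Real.rpow_natCast]
    push_cast
    exact le_rfl
  · intro m hm
    by_contra hcon
    push_cast at hcon
    have h1 := key k m hcon
    have hk0 : k ≠ 0 := by
      intro h0
      rw [h0] at hcon
      exact hcon (by simp)
    obtain ⟨j, hj⟩ := Nat.exists_eq_succ_of_ne_zero hk0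
    have h2 : ¬ θ ^ j ≤ δ := Nat.find_min hexk (by omega)
    push Not at h2
    rw [hj, pow_succ'] at h1
    have h3 := le_of_mul_le_mul_left h1 hθ0
    linarith

section Count

variable {K : Type} [Field K] [CharZero K]

/-- one variable -/
theorem one (a : AbsoluteValue K ℝ) (α : ℝ) (hα : 0 < α) (ha : IntA a α) (D : ℕ) (κ : ℝ)
    (hκ : 0 < κ) (ρ : ℕ) (hρ : 1 ≤ ρ) : ∃ ν C : ℝ, 0 < ν ∧ 0 < C ∧ ∀ B : ℕ, 1 ≤ B → ∀ P : K[X],
    P.natDegree = D → (B : ℝ) ^ (-(κ / 2)) < a P.leadingCoeff →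
    (((Finset.Icc (-((B ^ ρ : ℕ) : ℤ)) ((B ^ ρ : ℕ) : ℤ)).filter
      (fun x : ℤ => a (P.eval (x : K)) ≤ (B : ℝ) ^ (-κ))).card : ℝ) ≤
      C * (B : ℝ) ^ ((ρ : ℝ) - ν) := by
  classical
  rcases Nat.eq_zero_or_pos D with hD | hD
  · refine ⟨1, 1, one_pos, one_pos, fun B hB P hP hlc => ?_⟩
    have hB1 : (1 : ℝ) ≤ B := by exact_mod_cast hB
    rw [Finset.filter_false_of_mem]
    · simp only [Finset.card_empty, Nat.cast_zero, one_mul]
      positivity
    · intro x _ hx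
      rw [hD] at hP
      rw [Polynomial.eq_C_of_natDegree_eq_zero hP] at hx hlc
      rw [Polynomial.eval_C] at hx
      rw [Polynomial.leadingCoeff_C] at hlc
      have h1 : (B : ℝ) ^ (-κ) ≤ (B : ℝ) ^ (-(κ / 2)) :=
        Real.rpow_le_rpow_of_exponent_le hB1 (by linarith)
      linarith
  · have hDR : (0 : ℝ) < D := by exact_mod_cast hD
    set ν₂ : ℝ := min (κ * α / (2 * D)) 1 with hν
    set c₁ : ℝ := ((D : ℝ) + 1) ^ (α / D) with hc₁
    have hc₁0 : 0 < c₁ := Real.rpow_pos_of_pos (by positivity) _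
    refine ⟨ν₂, D * (3 * c₁ + 1), lt_min (by positivity) one_pos, by positivity,
      fun B hB P hP hlc => ?_⟩
    have hB1 : (1 : ℝ) ≤ B := by exact_mod_cast hB
    have hB0 : (0 : ℝ) < B := by linarith
    have hPne : P ≠ 0 := by
      rintro rfl
      simp only [Polynomial.natDegree_zero] at hP
      omega
    set q : ℝ := ((D : ℝ) + 1) * (B : ℝ) ^ (-(κ / 2)) with hq
    have hq0 : 0 < q := by positivity
    set δ : ℝ := q ^ (1 / (D : ℝ)) with hδ
    have hδ0 : 0 < δ := Real.rpow_pos_of_pos hq0 _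
    obtain ⟨M, hM1, hMδ, hM⟩ := ha δ hδ0
    have hfew := few (B ^ ρ) M D hM1
      ((Finset.Icc (-((B ^ ρ : ℕ) : ℤ)) ((B ^ ρ : ℕ) : ℤ)).filter
      (fun x : ℤ => a (P.eval (x : K)) ≤ (B : ℝ) ^ (-κ))) (Finset.filter_subset _ _) (by
        intro S hS hSc
        obtain ⟨x, hx, y, hy, hxy, h⟩ := lag2 a P hPne (by omega) S (by rw [hSc, hP])
          ((B : ℝ) ^ (-κ)) (fun x hx => (Finset.mem_filter.1 (hS hx)).2)
        refine ⟨x, hx, y, hy, hxy, hM _ ?_⟩
        rw [hP] at h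
        have hb0 : (0 : ℝ) < (B : ℝ) ^ (-(κ / 2)) := Real.rpow_pos_of_pos hB0 _
        have h1 : (B : ℝ) ^ (-κ) = (B : ℝ) ^ (-(κ / 2)) * (B : ℝ) ^ (-(κ / 2)) := by
          rw [← Real.rpow_add hB0]
          congr 1
          ring
        have h2 : a ((x - y : ℤ) : K) ^ D * (B : ℝ) ^ (-(κ / 2)) ≤
            q * (B : ℝ) ^ (-(κ / 2)) := by
          refine (mul_le_mul_of_nonneg_left hlc.le (pow_nonneg (a.nonneg _) _)).trans ?_
          rw [hq]
          rw [h1] at h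
          linarith
        have h3 := le_of_mul_le_mul_right h2 hb0
        rw [hδ, ← Real.pow_rpow_inv_natCast (a.nonneg ((x - y : ℤ) : K)) (by omega : D ≠ 0),
          ← one_div]
        exact Real.rpow_le_rpow (pow_nonneg (a.nonneg _) _) h3 (by positivity))
    refine hfew.trans ?_
    rw [mul_assoc]
    refine mul_le_mul_of_nonneg_left ?_ hDR.le
    have hMinv : 1 / (M : ℝ) ≤ δ ^ α := by
      have hMR : (0 : ℝ) < M := by exact_mod_cast hM1
      rw [div_le_iff₀ hMR]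
      have h4 : δ ^ α * δ ^ (-α) = 1 := by
        rw [← Real.rpow_add hδ0, add_neg_cancel, Real.rpow_zero]
      have h5 : 0 ≤ δ ^ α := Real.rpow_nonneg hδ0.le _
      nlinarith
    have hδα : δ ^ α = c₁ * (B : ℝ) ^ (-(κ * α / (2 * D))) := by
      rw [hδ, ← Real.rpow_mul hq0.le, hq, Real.mul_rpow (by positivity) (by positivity), hc₁,
        ← Real.rpow_mul hB0.le]
      congr 2
      · field_simp
      · field_simp
    have hX : (((B ^ ρ : ℕ) : ℕ) : ℝ) = (B : ℝ) ^ (ρ : ℝ) := by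
      rw [Real.rpow_natCast]
      push_cast
      rfl
    have hX1 : (1 : ℝ) ≤ (B : ℝ) ^ (ρ : ℝ) := Real.one_le_rpow hB1 (by positivity)
    rw [hX]
    have h6 : (2 * (B : ℝ) ^ (ρ : ℝ) + 1) / (M : ℝ) ≤
        3 * (B : ℝ) ^ (ρ : ℝ) * (c₁ * (B : ℝ) ^ (-(κ * α / (2 * D)))) := by
      rw [← hδα, div_eq_mul_one_div]
      refine mul_le_mul (by linarith) hMinv (by positivity) (by positivity)
    have h7 : (B : ℝ) ^ (ρ : ℝ) * (B : ℝ) ^ (-(κ * α / (2 * D))) ≤ (B : ℝ) ^ ((ρ : ℝ) - ν₂) := by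
      rw [← Real.rpow_add hB0]
      refine Real.rpow_le_rpow_of_exponent_le hB1 ?_
      have := min_le_left (κ * α / (2 * D)) 1
      linarith
    have h8 : (1 : ℝ) ≤ (B : ℝ) ^ ((ρ : ℝ) - ν₂) := by
      refine Real.one_le_rpow hB1 ?_
      have := min_le_right (κ * α / (2 * D)) 1
      have h9 : (1 : ℝ) ≤ ρ := by exact_mod_cast hρ
      linarith
    have h10 : 3 * (B : ℝ) ^ (ρ : ℝ) * (c₁ * (B : ℝ) ^ (-(κ * α / (2 * D)))) ≤
        3 * c₁ * (B : ℝ) ^ ((ρ : ℝ) - ν₂) := by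
      have h11 : 3 * (B : ℝ) ^ (ρ : ℝ) * (c₁ * (B : ℝ) ^ (-(κ * α / (2 * D)))) =
          3 * c₁ * ((B : ℝ) ^ (ρ : ℝ) * (B : ℝ) ^ (-(κ * α / (2 * D)))) := by ring
      rw [h11]
      exact mul_le_mul_of_nonneg_left h7 (by positivity)
    linarith

/-- the integral points of a box -/
noncomputable def bx {N : ℕ} (X : Fin N → ℕ) : Finset (Fin N → ℤ) :=
  Fintype.piFinset fun s => Finset.Icc (-(X s : ℤ)) (X s)

theorem mem_bx {N : ℕ} (X : Fin N → ℕ) (t : Fin N → ℤ) :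
    t ∈ bx X ↔ ∀ s, t s ∈ Finset.Icc (-(X s : ℤ)) (X s) := by
  unfold bx
  exact Fintype.mem_piFinset

theorem card_bx {N : ℕ} (ρ : Fin N → ℕ) (B : ℕ) (hB : 1 ≤ B) :
    ((bx (fun s => B ^ ρ s)).card : ℝ) ≤ 3 ^ N * (B : ℝ) ^ (∑ s, (ρ s : ℝ)) := by
  have hB1 : (1 : ℝ) ≤ B := by exact_mod_cast hB
  have hB0 : (0 : ℝ) < B := by linarith
  unfold bx
  rw [Fintype.card_piFinset]
  push_cast
  have h1 : ∀ s ∈ (Finset.univ : Finset (Fin N)),
      ((Finset.Icc (-((B : ℤ) ^ ρ s)) ((B : ℤ) ^ ρ s)).card : ℝ) ≤ 3 * (B : ℝ) ^ (ρ s : ℝ) := by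
    intro s _
    rw [Int.card_Icc]
    have h2 : (((B : ℤ) ^ ρ s + 1 - -((B : ℤ) ^ ρ s)).toNat : ℤ) = 2 * (B : ℤ) ^ ρ s + 1 := by
      have h0 : (0 : ℤ) ≤ (B : ℤ) ^ ρ s := by positivity
      rw [Int.toNat_of_nonneg (by linarith)]
      ring
    have h3 : (((B : ℤ) ^ ρ s + 1 - -((B : ℤ) ^ ρ s)).toNat : ℝ) = 2 * (B : ℝ) ^ ρ s + 1 := by
      exact_mod_cast h2
    rw [h3, Real.rpow_natCast]
    have h4 : (1 : ℝ) ≤ (B : ℝ) ^ ρ s := one_le_pow₀ hB1
    linarith
  refine (Finset.prod_le_prod (fun _ _ => Nat.cast_nonneg _) h1).trans ?_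
  rw [Finset.prod_mul_distrib, Finset.prod_const, Finset.card_univ, Fintype.card_fin,
    Real.rpow_sum_of_pos hB0]

/-- many variables -/
theorem poly (a : AbsoluteValue K ℝ) (α : ℝ) (hα : 0 < α) (ha : IntA a α) :
    ∀ (N : ℕ) (H : MvPolynomial (Fin N) K), H ≠ 0 → ∀ ρ : Fin N → ℕ, (∀ i, 1 ≤ ρ i) →
    ∀ κ : ℝ, 0 < κ → ∃ ν C : ℝ, 0 < ν ∧ 0 < C ∧ ∀ B : ℕ, 1 ≤ B →
    (((bx (fun s => B ^ ρ s)).filter (fun t : Fin N → ℤ =>
      a (MvPolynomial.eval (fun s => (t s : K)) H) ≤ (B : ℝ) ^ (-κ))).card : ℝ) ≤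
      C * (B : ℝ) ^ ((∑ i, (ρ i : ℝ)) - ν) := by
  classical
  intro N
  induction N with
  | zero =>
    intro H hH ρ _ κ hκ
    have hC := MvPolynomial.eq_C_of_isEmpty H
    set h0 := MvPolynomial.coeff 0 H with hh0
    have hne : h0 ≠ 0 := by
      intro h
      rw [h, map_zero] at hC
      exact hH hC
    have hpos : 0 < a h0 := a.pos hne
    refine ⟨κ, (a h0)⁻¹, hκ, inv_pos.2 hpos, fun B hB => ?_⟩
    have hB1 : (1 : ℝ) ≤ B := by exact_mod_cast hB
    have hB0 : (0 : ℝ) < B := by linarith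
    simp only [Finset.univ_eq_empty, Finset.sum_empty, zero_sub]
    rcases Finset.eq_empty_or_nonempty ((bx (fun s => B ^ ρ s)).filter (fun t : Fin 0 → ℤ =>
      a (MvPolynomial.eval (fun s => (t s : K)) H) ≤ (B : ℝ) ^ (-κ))) with he | ⟨t, ht⟩
    · rw [he, Finset.card_empty, Nat.cast_zero]
      positivity
    · have h1 := (Finset.mem_filter.1 ht).2
      rw [hC, MvPolynomial.eval_C] at h1
      have h2 : (((bx (fun s => B ^ ρ s)).filter (fun t : Fin 0 → ℤ =>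
          a (MvPolynomial.eval (fun s => (t s : K)) H) ≤ (B : ℝ) ^ (-κ))).card : ℝ) ≤ 1 := by
        exact_mod_cast Finset.card_le_one.2 fun x _ y _ => Subsingleton.elim x y
      refine h2.trans ?_
      rw [← inv_mul_cancel₀ hpos.ne']
      exact mul_le_mul_of_nonneg_left h1 (inv_nonneg.2 hpos.le)
  | succ N ih =>
    intro H hH ρ hρ κ hκ
    set Hs := MvPolynomial.finSuccEquiv K N H with hHs
    have hHs0 : Hs ≠ 0 := by
      rw [hHs]
      exact (map_ne_zero_iff _ (MvPolynomial.finSuccEquiv K N).injective).2 hH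
    have hL : Hs.leadingCoeff ≠ 0 := Polynomial.leadingCoeff_ne_zero.2 hHs0
    obtain ⟨ν₁, C₁, hν₁, hC₁, h1⟩ := ih Hs.leadingCoeff hL (fun i => ρ i.succ)
      (fun i => hρ _) (κ / 2) (by positivity)
    obtain ⟨ν₂, C₂, hν₂, hC₂, h2⟩ := one a α hα ha Hs.natDegree κ hκ (ρ 0) (hρ 0)
    refine ⟨min ν₁ ν₂, 3 * C₁ + 3 ^ N * C₂, lt_min hν₁ hν₂, by positivity, fun B hB => ?_⟩
    have hB1 : (1 : ℝ) ≤ B := by exact_mod_cast hB
    have hB0 : (0 : ℝ) < B := by linarith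
    have h1B := h1 B hB
    have h2B := h2 B hB
    set P : (Fin N → ℤ) → K[X] := fun t' =>
      Polynomial.map (MvPolynomial.eval (fun s => (t' s : K))) Hs with hP
    set T : (Fin N → ℤ) → Finset ℤ := fun t' =>
      (Finset.Icc (-((B ^ ρ 0 : ℕ) : ℤ)) ((B ^ ρ 0 : ℕ) : ℤ)).filter
      (fun x : ℤ => a ((P t').eval (x : K)) ≤ (B : ℝ) ^ (-κ)) with hT
    set box' : Finset (Fin N → ℤ) := bx (fun s => B ^ ρ s.succ) with hbox'
    set F1 : Finset (Fin N → ℤ) := box'.filter (fun t' : Fin N → ℤ =>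
      a (MvPolynomial.eval (fun s => (t' s : K)) Hs.leadingCoeff) ≤ (B : ℝ) ^ (-(κ / 2))) with hF1
    have hcard : (((bx (fun s => B ^ ρ s)).filter (fun t : Fin (N + 1) → ℤ =>
        a (MvPolynomial.eval (fun s => (t s : K)) H) ≤ (B : ℝ) ^ (-κ))).card : ℝ) ≤
        ∑ t' ∈ box', ((T t').card : ℝ) := by
      have h3 : ((bx (fun s => B ^ ρ s)).filter (fun t : Fin (N + 1) → ℤ =>
          a (MvPolynomial.eval (fun s => (t s : K)) H) ≤ (B : ℝ) ^ (-κ))).card ≤
          (box'.sigma T).card := by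
        refine Finset.card_le_card_of_injOn (fun t => ⟨fun i => t i.succ, t 0⟩) ?_ ?_
        · intro t ht
          have ht' := Finset.mem_filter.1 ht
          have htb := (mem_bx _ _).1 ht'.1
          refine Finset.mem_coe.2 (Finset.mem_sigma.2 ⟨(mem_bx _ _).2 fun s => htb s.succ, ?_⟩)
          rw [hT]
          refine Finset.mem_filter.2 ⟨htb 0, ?_⟩
          have h4 : Polynomial.eval (t 0 : K) (P (fun i => t i.succ)) =
              MvPolynomial.eval (fun s => (t s : K)) H := by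
            rw [hP, hHs]
            have h5 := MvPolynomial.eval_eq_eval_mv_eval' (fun i : Fin N => (t i.succ : K))
              (t 0 : K) H
            rw [← h5]
            congr 2
            funext s
            refine Fin.cases ?_ (fun i => ?_) s
            · rfl
            · rfl
          rw [h4]
          exact ht'.2
        · intro t _ t' _ htt
          have h5 : (fun i : Fin N => t i.succ) = (fun i : Fin N => t' i.succ) ∧ t 0 = t' 0 := by
            simpa using htt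
          funext s
          refine Fin.cases h5.2 (fun i => ?_) s
          exact congrFun h5.1 i
      rw [Finset.card_sigma] at h3
      exact_mod_cast h3
    refine hcard.trans ?_
    have hX : (((B ^ ρ 0 : ℕ) : ℕ) : ℝ) = (B : ℝ) ^ (ρ 0 : ℝ) := by
      rw [Real.rpow_natCast]
      push_cast
      rfl
    have hX1 : (1 : ℝ) ≤ (B : ℝ) ^ (ρ 0 : ℝ) := Real.one_le_rpow hB1 (by positivity)
    have hT1 : ∀ t' ∈ F1, ((T t').card : ℝ) ≤ 3 * (B : ℝ) ^ (ρ 0 : ℝ) := by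
      intro t' _
      have h3 : (T t').card ≤ (Finset.Icc (-((B ^ ρ 0 : ℕ) : ℤ)) ((B ^ ρ 0 : ℕ) : ℤ)).card :=
        Finset.card_filter_le _ _
      rw [Int.card_Icc] at h3
      have h4 : ((((B ^ ρ 0 : ℕ) : ℤ) + 1 - -((B ^ ρ 0 : ℕ) : ℤ)).toNat : ℝ) =
          2 * (((B ^ ρ 0 : ℕ) : ℕ) : ℝ) + 1 := by
        have h5 : ((((B ^ ρ 0 : ℕ) : ℤ) + 1 - -((B ^ ρ 0 : ℕ) : ℤ)).toNat : ℤ) =
            2 * ((B ^ ρ 0 : ℕ) : ℤ) + 1 := by
          have h0 : (0 : ℤ) ≤ ((B ^ ρ 0 : ℕ) : ℤ) := by positivity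
          rw [Int.toNat_of_nonneg (by linarith)]
          ring
        exact_mod_cast h5
      have h6 : ((T t').card : ℝ) ≤
          ((((B ^ ρ 0 : ℕ) : ℤ) + 1 - -((B ^ ρ 0 : ℕ) : ℤ)).toNat : ℝ) := by exact_mod_cast h3
      rw [h4, hX] at h6
      linarith
    have hT2 : ∀ t' ∈ box'.filter (fun t' : Fin N → ℤ =>
        ¬ a (MvPolynomial.eval (fun s => (t' s : K)) Hs.leadingCoeff) ≤ (B : ℝ) ^ (-(κ / 2))),
        ((T t').card : ℝ) ≤ C₂ * (B : ℝ) ^ ((ρ 0 : ℝ) - ν₂) := by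
      intro t' ht'
      have h3 := (Finset.mem_filter.1 ht').2
      push Not at h3
      have hne : MvPolynomial.eval (fun s => (t' s : K)) Hs.leadingCoeff ≠ 0 := by
        intro h
        rw [h, map_zero] at h3
        have : (0 : ℝ) < (B : ℝ) ^ (-(κ / 2)) := Real.rpow_pos_of_pos hB0 _
        linarith
      refine h2B (P t') ?_ ?_
      · exact Polynomial.natDegree_map_of_leadingCoeff_ne_zero _ hne
      · rw [hP]
        beta_reduce
        rw [Polynomial.leadingCoeff_map_of_leadingCoeff_ne_zero _ hne]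
        exact h3
    rw [← Finset.sum_filter_add_sum_filter_not box' (fun t' : Fin N → ℤ =>
      a (MvPolynomial.eval (fun s => (t' s : K)) Hs.leadingCoeff) ≤ (B : ℝ) ^ (-(κ / 2)))]
    have h3 := Finset.sum_le_card_nsmul F1 _ _ hT1
    have h4 := Finset.sum_le_card_nsmul _ _ _ hT2
    rw [nsmul_eq_mul] at h3 h4
    have h5 : (((box'.filter (fun t' : Fin N → ℤ =>
        ¬ a (MvPolynomial.eval (fun s => (t' s : K)) Hs.leadingCoeff) ≤
          (B : ℝ) ^ (-(κ / 2)))).card : ℕ) : ℝ) ≤ 3 ^ N * (B : ℝ) ^ (∑ s : Fin N, (ρ s.succ : ℝ)) := by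
      refine le_trans ?_ (card_bx (fun s => ρ s.succ) B hB)
      exact_mod_cast Finset.card_filter_le _ _
    have hsum : ∑ i, (ρ i : ℝ) = (ρ 0 : ℝ) + ∑ s : Fin N, (ρ s.succ : ℝ) := Fin.sum_univ_succ _
    set Sg : ℝ := ∑ s : Fin N, (ρ s.succ : ℝ) with hSg
    have h6 : ∑ x ∈ F1, ((T x).card : ℝ) ≤ 3 * C₁ * (B : ℝ) ^ ((∑ i, (ρ i : ℝ)) - min ν₁ ν₂) := by
      refine h3.trans ?_
      have h7 : (F1.card : ℝ) * (3 * (B : ℝ) ^ (ρ 0 : ℝ)) ≤
          (C₁ * (B : ℝ) ^ (Sg - ν₁)) * (3 * (B : ℝ) ^ (ρ 0 : ℝ)) :=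
        mul_le_mul_of_nonneg_right h1B (by positivity)
      refine h7.trans ?_
      have h8 : (C₁ * (B : ℝ) ^ (Sg - ν₁)) * (3 * (B : ℝ) ^ (ρ 0 : ℝ)) =
          3 * C₁ * (B : ℝ) ^ (Sg - ν₁ + ρ 0) := by
        rw [Real.rpow_add hB0]
        ring
      rw [h8]
      refine mul_le_mul_of_nonneg_left ?_ (by positivity)
      refine Real.rpow_le_rpow_of_exponent_le hB1 ?_
      have := min_le_left ν₁ ν₂
      rw [hsum]
      linarith
    have h9 : ∑ x ∈ box'.filter (fun t' : Fin N → ℤ =>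
        ¬ a (MvPolynomial.eval (fun s => (t' s : K)) Hs.leadingCoeff) ≤ (B : ℝ) ^ (-(κ / 2))),
        ((T x).card : ℝ) ≤ 3 ^ N * C₂ * (B : ℝ) ^ ((∑ i, (ρ i : ℝ)) - min ν₁ ν₂) := by
      refine h4.trans ?_
      have h7 := mul_le_mul_of_nonneg_right h5
        (by positivity : 0 ≤ C₂ * (B : ℝ) ^ ((ρ 0 : ℝ) - ν₂))
      refine h7.trans ?_
      have h8 : 3 ^ N * (B : ℝ) ^ Sg * (C₂ * (B : ℝ) ^ ((ρ 0 : ℝ) - ν₂)) =
          3 ^ N * C₂ * (B : ℝ) ^ (Sg + ((ρ 0 : ℝ) - ν₂)) := by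
        rw [Real.rpow_add hB0]
        ring
      rw [h8]
      refine mul_le_mul_of_nonneg_left ?_ (by positivity)
      refine Real.rpow_le_rpow_of_exponent_le hB1 ?_
      have := min_le_right ν₁ ν₂
      rw [hsum]
      linarith
    have h10 : (3 * C₁ + 3 ^ N * C₂) * (B : ℝ) ^ ((∑ i, (ρ i : ℝ)) - min ν₁ ν₂) =
        3 * C₁ * (B : ℝ) ^ ((∑ i, (ρ i : ℝ)) - min ν₁ ν₂) +
        3 ^ N * C₂ * (B : ℝ) ^ ((∑ i, (ρ i : ℝ)) - min ν₁ ν₂) := by ring
    rw [h10]
    exact add_le_add h6 h9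

end Count

section Main

variable {K : Type} [Field K] [NumberField K]

theorem sz_le (z : 𝓞 K) (B : ℕ) :
    sz z ≤ B ↔ ∀ i, ((RingOfIntegers.basis K).repr z i).natAbs ≤ B := by
  unfold sz
  rw [Finset.sup_le_iff]
  simp

/-- the polynomial in the coordinates -/
theorem sub (S : Type) [Fintype S] (R : MvPolynomial S (𝓞 K)) (hR : R ≠ 0) (N : ℕ)
    (e : (S × Free.ChooseBasisIndex ℤ (𝓞 K)) ≃ Fin N) :
    ∃ H : MvPolynomial (Fin N) K, H ≠ 0 ∧ ∀ c : S → 𝓞 K,
      MvPolynomial.eval (fun s => ((RingOfIntegers.basis K).repr (c (e.symm s).1) (e.symm s).2 : K))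
        H = ((MvPolynomial.eval c R : 𝓞 K) : K) := by
  classical
  set b := RingOfIntegers.basis K with hb
  set φ : S → MvPolynomial (Fin N) K := fun s =>
    ∑ l, MvPolynomial.C ((b l : 𝓞 K) : K) * MvPolynomial.X (e (s, l)) with hφ
  set H : MvPolynomial (Fin N) K :=
    MvPolynomial.eval₂ ((MvPolynomial.C).comp (algebraMap (𝓞 K) K)) φ R with hH
  have hev : ∀ c : S → 𝓞 K,
      MvPolynomial.eval (fun s => (b.repr (c (e.symm s).1) (e.symm s).2 : K))
        H = ((MvPolynomial.eval c R : 𝓞 K) : K) := by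
    intro c
    set t : Fin N → K := fun s => (b.repr (c (e.symm s).1) (e.symm s).2 : K) with ht
    have h1 : ∀ s, MvPolynomial.eval t (φ s) = ((c s : 𝓞 K) : K) := by
      intro s
      rw [hφ]
      beta_reduce
      rw [map_sum]
      have h2 : ∀ l, MvPolynomial.eval t (MvPolynomial.C ((b l : 𝓞 K) : K) *
          MvPolynomial.X (e (s, l))) = ((b.repr (c s) l : K)) * ((b l : 𝓞 K) : K) := by
        intro l
        rw [map_mul, MvPolynomial.eval_C, MvPolynomial.eval_X, ht]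
        beta_reduce
        rw [Equiv.symm_apply_apply, mul_comm]
      simp_rw [h2]
      conv_rhs => rw [← b.sum_repr (c s)]
      push_cast
      refine Finset.sum_congr rfl fun l _ => ?_
      rw [zsmul_eq_mul]
    have h3 : MvPolynomial.eval t H =
        MvPolynomial.eval₂ (algebraMap (𝓞 K) K) (fun s => ((c s : 𝓞 K) : K)) R := by
      rw [hH, MvPolynomial.eval₂_comp_left]
      congr 1
      · ext x
        simp
      · funext s
        exact h1 s
    rw [h3]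
    exact (MvPolynomial.eval₂_comp (algebraMap (𝓞 K) K) c R).symm
  refine ⟨H, ?_, hev⟩
  intro h0
  apply hR
  apply MvPolynomial.funext
  intro c
  have h1 := hev c
  rw [h0, map_zero] at h1
  rw [map_zero]
  exact (RingOfIntegers.coe_injective (h1.symm.trans (by simp)))

theorem t : StmPolyV := by
  intro K _ _ m n ρ hn hρ R hR v κ hκ
  classical
  set N := Fintype.card ((Σ i, Fin (n i)) × Free.ChooseBasisIndex ℤ (𝓞 K)) with hN
  set e : ((Σ i, Fin (n i)) × Free.ChooseBasisIndex ℤ (𝓞 K)) ≃ Fin N :=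
    Fintype.equivFin _ with he
  obtain ⟨H, hH, hev⟩ := sub (Σ i, Fin (n i)) R hR N e
  obtain ⟨α, hα, ha⟩ := intA_adic v
  obtain ⟨ν, C, hν, hC, h⟩ := poly (HeightOneSpectrum.adicAbv K v) α hα ha N H hH
    (fun s => ρ (e.symm s).1.1) (fun _ => hρ _) κ hκ
  refine ⟨ν, C, hν, fun B hB => ?_⟩
  have hB1 : (1 : ℝ) ≤ B := by exact_mod_cast hB
  have hB0 : (0 : ℝ) < B := by linarith
  have hsum : ∑ s : Fin N, (ρ (e.symm s).1.1 : ℝ) =
      (finrank ℚ K : ℝ) * ∑ i, (ρ i : ℝ) * n i := by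
    rw [Equiv.sum_comp e.symm (fun x : (Σ i, Fin (n i)) × Free.ChooseBasisIndex ℤ (𝓞 K) =>
      (ρ x.1.1 : ℝ)), Fintype.sum_prod_type, ← RingOfIntegers.rank K,
      Module.finrank_eq_card_chooseBasisIndex, Finset.mul_sum, Fintype.sum_sigma]
    refine Finset.sum_congr rfl fun i _ => ?_
    simp only [Finset.sum_const, Finset.card_univ, Fintype.card_fin, nsmul_eq_mul]
    ring
  rw [← hsum]
  refine le_trans ?_ (h B hB)
  rw [← Set.ncard_coe_finset]
  refine Nat.cast_le.2 (Set.ncard_le_ncard_of_injOn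
    (fun (c : ∀ i, Fin (n i) → 𝓞 K) (s : Fin N) => (RingOfIntegers.basis K).repr
      (c (e.symm s).1.1 (e.symm s).1.2) (e.symm s).2) ?_ ?_ (Finset.finite_toSet _))
  · intro c hc
    obtain ⟨hc1, E, hcE, hE, hE1⟩ := hc
    refine Finset.mem_coe.2 (Finset.mem_filter.2 ⟨(mem_bx _ _).2 fun s => ?_, ?_⟩)
    · have h1 := (sz_le _ _).1 (hc1 (e.symm s).1.1 (e.symm s).1.2) (e.symm s).2
      rw [Finset.mem_Icc]
      omega
    · have h2 := hev (fun s => c s.1 s.2)
      rw [h2]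
      refine (abv_mem v _ E hcE).trans ?_
      rw [Real.rpow_def_of_pos hB0]
      refine Real.exp_le_exp.2 ?_
      linarith
  · intro c _ c' _ hcc
    funext i j
    apply (RingOfIntegers.basis K).repr.injective
    ext l
    have key : ∀ (d : ∀ i, Fin (n i) → 𝓞 K)
        (y x : (Σ i, Fin (n i)) × Free.ChooseBasisIndex ℤ (𝓞 K)), y = x →
        (RingOfIntegers.basis K).repr (d y.1.1 y.1.2) y.2 =
        (RingOfIntegers.basis K).repr (d x.1.1 x.1.2) x.2 := by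
      rintro d y x rfl
      rfl
    have h1 := congrFun hcc (e (⟨i, j⟩, l))
    have h2 := key c _ _ (e.symm_apply_apply (⟨i, j⟩, l))
    have h3 := key c' _ _ (e.symm_apply_apply (⟨i, j⟩, l))
    exact h2.symm.trans (h1.trans h3)

end Main

end Pool.Agent.N703.PC
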